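import Mathlib

/-!
Plateaued APN functions: Walsh transform, third moment, exclude multiplicities.
-/

namespace Pool.Agent.Q286.Apn

open Finset

/-- The vector space `F_2^n`. -/
abbrev V (n : ℕ) : Type := Fin n → ZMod 2

variable {n : ℕ}

/-- The standard inner product on `F_2^n`. -/
def ip (u x : V n) : ZMod 2 := ∑ i, u i * x i

/-- `sgn t = (-1)^t`. -/
def sgn (t : ZMod 2) : ℤ := if t = 0 then 1 else -1

/-- The Walsh transform `W_F(u, v) = ∑_x (-1)^(v·F(x) + u·x)`. -/
def walsh (F : V n → V n) (u v : V n) : ℤ := ∑ x, sgn (ip v (F x) + ip u x)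

/-- `F` is APN: for every `a ≠ 0` and every `b` the equation `F(x) + F(x+a) = b` has at most two
solutions. -/
def IsAPN (F : V n → V n) : Prop :=
  ∀ a : V n, a ≠ 0 → ∀ b : V n, (univ.filter (fun x => F x + F (x + a) = b)).card ≤ 2

/-- `F` is plateaued: for every `v ≠ 0` there is `l ≥ 0` such that `W_F(u, v)` is `0`, `l` or `-l`
for all `u`. -/
def IsPlateaued (F : V n → V n) : Prop :=
  ∀ v : V n, v ≠ 0 → ∃ l : ℝ, 0 ≤ l ∧
    ∀ u, (walsh F u v : ℝ) = 0 ∨ (walsh F u v : ℝ) = l ∨ (walsh F u v : ℝ) = -l

/-- The graph of `F`. -/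
def graph (F : V n → V n) : Finset (V n × V n) := univ.image (fun x => (x, F x))

/-- The number of three-element subsets of `S` with sum `p`. -/
def mult {W : Type} [AddCommMonoid W] [DecidableEq W] (S : Finset W) (p : W) : ℕ :=
  ((S.powersetCard 3).filter (fun t => ∑ q ∈ t, q = p)).card

/-! ### Characters -/

theorem sgn_add (s t : ZMod 2) : sgn (s + t) = sgn s * sgn t := by
  revert s t; decide

theorem sgn_zero : sgn 0 = 1 := by decide

theorem sgn_sq (s : ZMod 2) : sgn s * sgn s = 1 := by
  revert s; decide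

theorem sgn_sum {ι : Type} (s : Finset ι) (f : ι → ZMod 2) :
    sgn (∑ i ∈ s, f i) = ∏ i ∈ s, sgn (f i) := by
  classical
  induction s using Finset.induction_on with
  | empty => simp [sgn_zero]
  | insert a s ha ih => rw [sum_insert ha, prod_insert ha, sgn_add, ih]

theorem vadd_self (x : V n) : x + x = 0 := by
  ext i
  exact CharTwo.add_self_eq_zero _

theorem eq_of_vadd_eq_zero {x y : V n} (h : x + y = 0) : x = y := by
  have : x + y + y = y := by rw [h, zero_add]
  rwa [add_assoc, vadd_self, add_zero] at this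

theorem ip_add_right (u x y : V n) : ip u (x + y) = ip u x + ip u y := by
  unfold ip
  rw [← sum_add_distrib]
  apply sum_congr rfl
  intro i _
  rw [Pi.add_apply, mul_add]

theorem ip_comm (u x : V n) : ip u x = ip x u := by
  unfold ip
  apply sum_congr rfl
  intro i _
  rw [mul_comm]

theorem ip_add_left (u v x : V n) : ip (u + v) x = ip u x + ip v x := by
  rw [ip_comm, ip_add_right, ip_comm x u, ip_comm x v]

theorem ip_zero_right (u : V n) : ip u 0 = 0 := by simp [ip]

theorem ip_zero_left (u : V n) : ip 0 u = 0 := by simp [ip]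

theorem sum_sgn_ip (a : V n) : ∑ u : V n, sgn (ip u a) = if a = 0 then 2 ^ n else 0 := by
  classical
  have h : ∀ u : V n, sgn (ip u a) = ∏ i, sgn (u i * a i) := fun u => sgn_sum _ _
  simp only [h]
  have h2 := Finset.prod_univ_sum (fun _ : Fin n => (univ : Finset (ZMod 2)))
    (fun i t => sgn (t * a i))
  have h3 : Fintype.piFinset (fun _ : Fin n => (univ : Finset (ZMod 2))) = univ := by
    ext x; simp
  rw [h3] at h2
  rw [← h2]
  have h4 : ∀ t : ZMod 2, ∑ s : ZMod 2, sgn (s * t) = if t = 0 then 2 else 0 := by decide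
  simp only [h4]
  by_cases ha : a = 0
  · simp [ha]
  · rw [if_neg ha]
    obtain ⟨i, hi⟩ : ∃ i, a i ≠ 0 := by
      by_contra hcon
      push Not at hcon
      exact ha (funext hcon)
    exact prod_eq_zero (mem_univ i) (if_neg hi)

theorem sum_sgn_ip' (a : V n) : ∑ u : V n, sgn (ip a u) = if a = 0 then 2 ^ n else 0 := by
  rw [← sum_sgn_ip a]
  exact sum_congr rfl (fun u _ => by rw [ip_comm])

theorem card_V : ((univ : Finset (V n)).card : ℤ) = 2 ^ n := by
  simp [ZMod.card]

theorem walsh_eq (F : V n → V n) (u v : V n) :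
    walsh F u v = ∑ x, sgn (ip v (F x)) * sgn (ip u x) :=
  sum_congr rfl (fun x _ => sgn_add _ _)

/-- Inversion. -/
theorem inversion (F : V n → V n) (a v : V n) :
    ∑ u, sgn (ip u a) * walsh F u v = 2 ^ n * sgn (ip v (F a)) := by
  have h : ∀ u, sgn (ip u a) * walsh F u v = ∑ x, sgn (ip v (F x)) * sgn (ip u (a + x)) := by
    intro u
    rw [walsh_eq, mul_sum]
    apply sum_congr rfl
    intro x _
    rw [ip_add_right, sgn_add]
    ring
  simp only [h]
  rw [sum_comm]
  have h2 : ∀ x, ∑ u, sgn (ip v (F x)) * sgn (ip u (a + x)) =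
      if x = a then 2 ^ n * sgn (ip v (F a)) else 0 := by
    intro x
    rw [← mul_sum, sum_sgn_ip]
    by_cases hx : x = a
    · rw [if_pos hx, hx, vadd_self, if_pos rfl]; ring
    · rw [if_neg hx, if_neg, mul_zero]
      intro h
      exact hx (eq_of_vadd_eq_zero h).symm
  simp only [h2]
  simp

/-- Parseval. -/
theorem parseval (F : V n → V n) (v : V n) : ∑ u, walsh F u v ^ 2 = 2 ^ (2 * n) := by
  have h : ∀ u, walsh F u v ^ 2 = ∑ x, sgn (ip v (F x)) * (sgn (ip u x) * walsh F u v) := by
    intro u
    rw [pow_two]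
    conv_lhs => rw [walsh_eq F u v]
    rw [sum_mul]
    apply sum_congr rfl
    intro x _
    rw [walsh_eq F u v]
    ring
  simp only [h]
  rw [sum_comm]
  simp only [← mul_sum, inversion]
  have h2 : ∀ x, sgn (ip v (F x)) * (2 ^ n * sgn (ip v (F x))) = 2 ^ n := by
    intro x
    rw [mul_comm (2 ^ n : ℤ), ← mul_assoc, sgn_sq, one_mul]
  simp only [h2]
  rw [sum_const, nsmul_eq_mul, card_V]
  ring

/-- Cube of the Walsh transform. -/
theorem cube (F : V n → V n) (a v : V n) :
    ∑ u, sgn (ip u a) * walsh F u v ^ 3 =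
      2 ^ n * ∑ x, ∑ y, sgn (ip v (F x + F y + F (x + y + a))) := by
  have h : ∀ u, sgn (ip u a) * walsh F u v ^ 3 =
      ∑ x, ∑ y, sgn (ip v (F x)) * sgn (ip v (F y)) * (sgn (ip u (x + y + a)) * walsh F u v) := by
    intro u
    have h3 : walsh F u v ^ 3 = (∑ x, sgn (ip v (F x)) * sgn (ip u x)) *
        (∑ y, sgn (ip v (F y)) * sgn (ip u y)) * walsh F u v := by
      rw [← walsh_eq]; ring
    rw [h3, sum_mul_sum, sum_mul, mul_sum]
    apply sum_congr rfl
    intro x _
    rw [sum_mul, mul_sum]
    apply sum_congr rfl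
    intro y _
    rw [ip_add_right, ip_add_right, sgn_add, sgn_add]
    ring
  simp only [h]
  rw [sum_comm, mul_sum]
  apply sum_congr rfl
  intro x _
  rw [sum_comm, mul_sum]
  apply sum_congr rfl
  intro y _
  rw [← mul_sum, inversion, ip_add_right, ip_add_right, sgn_add, sgn_add]
  ring

/-- For a plateaued component with amplitude squared `L`. -/
theorem third (F : V n → V n) (v : V n) (L : ℤ) (hL : ∀ u, walsh F u v ^ 3 = L * walsh F u v)
    (a : V n) : ∑ x, ∑ y, sgn (ip v (F x + F y + F (x + y + a) + F a)) = L := by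
  have h1 := cube F a v
  have h2 : ∑ u, sgn (ip u a) * walsh F u v ^ 3 = L * (2 ^ n * sgn (ip v (F a))) := by
    rw [← inversion, mul_sum]
    apply sum_congr rfl
    intro u _
    rw [hL]; ring
  rw [h2] at h1
  have h3 : ∑ x, ∑ y, sgn (ip v (F x + F y + F (x + y + a) + F a)) =
      sgn (ip v (F a)) * ∑ x, ∑ y, sgn (ip v (F x + F y + F (x + y + a))) := by
    rw [mul_sum]
    apply sum_congr rfl
    intro x _
    rw [mul_sum]
    apply sum_congr rfl
    intro y _
    rw [ip_add_right v _ (F a), sgn_add]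
    ring
  have h4 : (2 : ℤ) ^ n ≠ 0 := by positivity
  apply mul_left_cancel₀ h4
  rw [h3]
  calc (2 : ℤ) ^ n * (sgn (ip v (F a)) * ∑ x, ∑ y, sgn (ip v (F x + F y + F (x + y + a)))) =
      sgn (ip v (F a)) * (2 ^ n * ∑ x, ∑ y, sgn (ip v (F x + F y + F (x + y + a)))) := by ring
    _ = sgn (ip v (F a)) * (L * (2 ^ n * sgn (ip v (F a)))) := by rw [← h1]
    _ = (sgn (ip v (F a)) * sgn (ip v (F a))) * (2 ^ n * L) := by ring
    _ = 2 ^ n * L := by rw [sgn_sq, one_mul]

/-- The number of pairs `(x, y)` with `F(x) + F(y) + F(x+y+a) + F(a) = c`. -/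
def cnt (F : V n → V n) (a c : V n) : ℕ :=
  (univ.filter (fun p : V n × V n => F p.1 + F p.2 + F (p.1 + p.2 + a) + F a = c)).card

theorem sum_L (F : V n → V n) (L : V n → ℤ)
    (hL : ∀ v u, walsh F u v ^ 3 = L v * walsh F u v) (a c : V n) :
    ∑ v, sgn (ip v c) * L v = 2 ^ n * cnt F a c := by
  have h : ∀ v, sgn (ip v c) * L v = ∑ x, ∑ y,
      sgn (ip v (F x + F y + F (x + y + a) + F a + c)) := by
    intro v
    rw [← third F v (L v) (hL v) a, mul_sum]
    apply sum_congr rfl
    intro x _
    rw [mul_sum]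
    apply sum_congr rfl
    intro y _
    rw [ip_add_right v _ c, sgn_add]
    ring
  simp only [h]
  rw [sum_comm]
  have h1 : ∀ x : V n, ∑ v, ∑ y, sgn (ip v (F x + F y + F (x + y + a) + F a + c)) =
      ∑ y, if F x + F y + F (x + y + a) + F a = c then 2 ^ n else 0 := by
    intro x
    rw [sum_comm]
    apply sum_congr rfl
    intro y _
    rw [sum_sgn_ip]
    by_cases hc : F x + F y + F (x + y + a) + F a = c
    · rw [if_pos hc, hc, vadd_self, if_pos rfl]
    · rw [if_neg hc, if_neg]
      intro h
      exact hc (eq_of_vadd_eq_zero h)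
  simp only [h1]
  rw [← Fintype.sum_prod_type' (f := fun x y : V n =>
    if F x + F y + F (x + y + a) + F a = c then (2 : ℤ) ^ n else 0)]
  rw [← sum_filter, sum_const, nsmul_eq_mul, cnt, mul_comm]

/-! ### APN -/

theorem cnt_zero (F : V n → V n) (hF : IsAPN F) (a : V n) : (cnt F a 0 : ℤ) = 3 * 2 ^ n - 2 := by
  classical
  have hset : univ.filter (fun p : V n × V n =>
      F p.1 + F p.2 + F (p.1 + p.2 + a) + F a = 0) =
      (univ.image (fun x : V n => (x, x))) ∪
        ((univ.erase a).image (fun x : V n => (a, x)) ∪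
          (univ.erase a).image (fun x : V n => (x, a))) := by
    ext ⟨x, y⟩
    simp only [mem_filter, mem_univ, true_and, mem_union, mem_image, Prod.mk.injEq, mem_erase,
      ne_eq, and_true]
    constructor
    · intro h
      by_cases hxy : x = y
      · left; exact ⟨x, rfl, hxy⟩
      · right
        -- APN
        have ha' : x + y ≠ 0 := fun h0 => hxy (eq_of_vadd_eq_zero h0)
        have hcard := hF (x + y) ha' (F x + F y)
        have e1 : x ∈ univ.filter (fun z => F z + F (z + (x + y)) = F x + F y) := by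
          simp only [mem_filter, mem_univ, true_and]
          rw [← add_assoc, vadd_self, zero_add]
        have e2 : y ∈ univ.filter (fun z => F z + F (z + (x + y)) = F x + F y) := by
          simp only [mem_filter, mem_univ, true_and]
          rw [add_comm x y, ← add_assoc, vadd_self, zero_add, add_comm]
        have e3 : a ∈ univ.filter (fun z => F z + F (z + (x + y)) = F x + F y) := by
          simp only [mem_filter, mem_univ, true_and]
          rw [add_comm a (x + y)]
          have h1 : (F x + F y) + (F a + F (x + y + a)) = 0 := by rw [← h]; abel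
          exact (eq_of_vadd_eq_zero h1).symm
        by_contra hcon
        rw [not_or] at hcon
        have hax : a ≠ x := by
          rintro rfl
          exact hcon.1 ⟨y, fun h => hxy h.symm, rfl, rfl⟩
        have hay : a ≠ y := by
          rintro rfl
          exact hcon.2 ⟨x, hxy, rfl, rfl⟩
        have h3 : ({x, y, a} : Finset (V n)) ⊆
            univ.filter (fun z => F z + F (z + (x + y)) = F x + F y) := by
          intro z hz
          simp only [mem_insert, mem_singleton] at hz
          rcases hz with rfl | rfl | rfl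
          · exact e1
          · exact e2
          · exact e3
        have h4 := card_le_card h3
        rw [card_eq_three.2 ⟨x, y, a, hxy, hax.symm, hay.symm, rfl⟩] at h4
        omega
    · rintro (⟨z, rfl, rfl⟩ | ⟨z, -, rfl, rfl⟩ | ⟨z, -, rfl, rfl⟩)
      · rw [vadd_self, vadd_self, zero_add, zero_add, vadd_self]
      · have : a + z + a = z := by rw [add_comm a z, add_assoc, vadd_self, add_zero]
        rw [this, add_assoc (F a) (F z) (F z), vadd_self, add_zero, vadd_self]
      · have : z + a + a = z := by rw [add_assoc, vadd_self, add_zero]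
        rw [this]
        have h2 : F z + F a + F z + F a = (F z + F z) + (F a + F a) := by abel
        rw [h2, vadd_self, vadd_self, add_zero]
  have hn1 : 1 ≤ 2 ^ n := Nat.one_le_two_pow
  have hcu : (univ : Finset (V n)).card = 2 ^ n := by simp [ZMod.card]
  have hce : ((univ : Finset (V n)).erase a).card = 2 ^ n - 1 := by
    rw [card_erase_of_mem (mem_univ a), hcu]
  unfold cnt
  rw [hset, card_union_of_disjoint, card_union_of_disjoint, card_image_of_injective,
    card_image_of_injective, card_image_of_injective, hce, hcu]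
  · push_cast [Nat.cast_sub hn1]
    ring
  · intro x y h
    exact (Prod.mk.inj h).1
  · intro x y h
    exact (Prod.mk.inj h).2
  · intro x y h
    exact (Prod.mk.inj h).1
  · rw [disjoint_left]
    rintro ⟨x, y⟩ h1 h2
    simp only [mem_image, mem_erase, mem_univ, and_true, Prod.mk.injEq] at h1 h2
    obtain ⟨z, hz, rfl, rfl⟩ := h1
    obtain ⟨z', hz', rfl, h3⟩ := h2
    exact hz h3.symm
  · rw [disjoint_left]
    rintro ⟨x, y⟩ h1 h2
    simp only [mem_image, mem_univ, true_and, Prod.mk.injEq] at h1
    obtain ⟨z, rfl, rfl⟩ := h1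
    simp only [mem_union, mem_image, mem_erase, mem_univ, and_true, Prod.mk.injEq] at h2
    rcases h2 with ⟨w, hw, h3, h4⟩ | ⟨w, hw, h3, h4⟩
    · exact hw (h4.trans h3.symm)
    · exact hw (h3.trans h4.symm)

end Pool.Agent.Q286.Apn
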