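import Pool.Agent.Q286.Apn.Mult

/-!
The amplitudes of plateaued APN functions in even dimension.
-/

namespace Pool.Agent.Q286.Apn

open Finset

variable {n : ℕ}

theorem cube_of_cases {w l : ℤ} (h : w = 0 ∨ w = l ∨ w = -l) : w ^ 3 = l ^ 2 * w := by
  rcases h with h | h | h
  · rw [h]; ring
  · rw [h]; ring
  · rw [h]; ring

/-- sum of the Walsh transform over all `v` -/
theorem sum_walsh_sgn (F : V n → V n) (u c : V n) :
    ∑ v, sgn (ip v c) * walsh F u v =
      2 ^ n * ∑ x ∈ univ.filter (fun x => F x = c), sgn (ip u x) := by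
  have h : ∀ v, sgn (ip v c) * walsh F u v = ∑ x, sgn (ip u x) * sgn (ip v (F x + c)) := by
    intro v
    rw [walsh_eq, mul_sum]
    apply sum_congr rfl
    intro x _
    rw [ip_add_right, sgn_add]
    ring
  simp only [h]
  rw [sum_comm, sum_filter, mul_sum]
  apply sum_congr rfl
  intro x _
  rw [← mul_sum, sum_sgn_ip]
  by_cases hx : F x = c
  · rw [if_pos hx, if_pos (by rw [hx, vadd_self])]; ring
  · rw [if_neg hx, if_neg, mul_zero, mul_zero]
    intro h
    exact hx (eq_of_vadd_eq_zero h)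

/-- The data attached to a plateaued APN function in dimension `2 k`. -/
structure Data {k : ℕ} (F : V (2 * k) → V (2 * k)) (j : V (2 * k) → ℕ) : Prop where
  ge : ∀ v, k ≤ j v
  zero : j 0 = 2 * k
  val : ∀ v u, walsh F u v = 0 ∨ walsh F u v = 2 ^ j v ∨ walsh F u v = -2 ^ j v
  bent : ∀ v, j v = k → ∀ u, walsh F u v ≠ 0

theorem exists_data {k : ℕ} (F : V (2 * k) → V (2 * k)) (hF : IsPlateaued F) :
    ∃ j, Data F j := by
  choose j h1 h2 h3 h4 using amplitude F hF
  exact ⟨j, fun v => by have := h1 v; omega, h2 0 rfl, h3,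
    fun v hv => h4 v (by omega)⟩

variable {k : ℕ} {F : V (2 * k) → V (2 * k)} {j : V (2 * k) → ℕ}

/-- The second moment identity: `∑_v (-1)^(v·c) g_v^2 = cnt`. -/
theorem Data.moment (hD : Data F j) (a c : V (2 * k)) :
    ∑ v, sgn (ip v c) * (2 ^ (j v - k)) ^ 2 = (cnt F a c : ℤ) := by
  have h := sum_L F (fun v => (2 ^ j v) ^ 2) (fun v u => cube_of_cases (hD.val v u)) a c
  have h1 : ∀ v, sgn (ip v c) * ((2 : ℤ) ^ j v) ^ 2 =
      2 ^ (2 * k) * (sgn (ip v c) * (2 ^ (j v - k)) ^ 2) := by
    intro v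
    have h2 : j v = k + (j v - k) := by have := hD.ge v; omega
    have h3 : ((2 : ℤ) ^ j v) ^ 2 = 2 ^ (2 * k) * (2 ^ (j v - k)) ^ 2 := by
      conv_lhs => rw [h2]
      rw [pow_add, mul_pow, ← pow_mul, mul_comm k 2]
    rw [h3]; ring
  simp only [h1] at h
  rw [← mul_sum] at h
  have h4 : (2 : ℤ) ^ (2 * k) ≠ 0 := by positivity
  exact mul_left_cancel₀ h4 h

/-- The normalised Walsh coefficient at `u = 0`. -/
noncomputable def hh (F : V (2 * k) → V (2 * k)) (v : V (2 * k)) : ℤ := walsh F 0 v / 2 ^ k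

theorem Data.walsh_eq_hh (hD : Data F j) (v : V (2 * k)) : walsh F 0 v = 2 ^ k * hh F v := by
  have h2 : j v = k + (j v - k) := by have := hD.ge v; omega
  have hdvd : (2 : ℤ) ^ k ∣ walsh F 0 v := by
    rcases hD.val v 0 with h | h | h
    · rw [h]; exact dvd_zero _
    · rw [h, h2, pow_add]; exact dvd_mul_right _ _
    · rw [h, h2, pow_add]; exact (dvd_neg).2 (dvd_mul_right _ _)
  exact (Int.mul_ediv_cancel' hdvd).symm

/-- `h_v` is odd iff `v·F` is bent -/
theorem Data.hh_parity (hD : Data F j) (v : V (2 * k)) : Odd (hh F v) ↔ j v = k := by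
  obtain ⟨e, he⟩ : ∃ e, j v = k + e := ⟨j v - k, by have := hD.ge v; omega⟩
  have hk : (2 : ℤ) ^ k ≠ 0 := by positivity
  have hw := hD.walsh_eq_hh v
  have key : hh F v = 0 ∨ hh F v = 2 ^ e ∨ hh F v = -2 ^ e := by
    rcases hD.val v 0 with h | h | h
    · left
      rw [h] at hw
      rcases mul_eq_zero.1 hw.symm with h' | h'
      · exact absurd h' hk
      · exact h'
    · right; left
      rw [h, he, pow_add] at hw
      exact (mul_left_cancel₀ hk hw).symm
    · right; right
      rw [h, he, pow_add, ← mul_neg] at hw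
      exact (mul_left_cancel₀ hk hw).symm
  constructor
  · intro hodd
    by_contra hne
    obtain ⟨f, rfl⟩ : ∃ f, e = f + 1 := ⟨e - 1, by omega⟩
    have hev : Even (hh F v) := by
      rcases key with h | h | h
      · rw [h]; exact Even.zero
      · rw [h, pow_succ]; exact (even_two).mul_left _
      · rw [h, pow_succ]; exact ((even_two).mul_left _).neg
    exact (Int.not_even_iff_odd.2 hodd) hev
  · intro hjk
    have hne : hh F v ≠ 0 := by
      intro h0
      apply hD.bent v hjk 0
      rw [hw, h0, mul_zero]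
    have he0 : e = 0 := by omega
    rw [he0, pow_zero] at key
    rcases key with h | h | h
    · exact absurd h hne
    · rw [h]; exact odd_one
    · rw [h]; exact odd_one.neg

theorem Data.g_parity (hD : Data F j) (v : V (2 * k)) :
    Odd (((2 : ℤ) ^ (j v - k)) ^ 2) ↔ j v = k := by
  constructor
  · intro h
    by_contra hne
    have hlt : k < j v := lt_of_le_of_ne (hD.ge v) (Ne.symm hne)
    obtain ⟨e, he⟩ : ∃ e, j v - k = e + 1 := ⟨j v - k - 1, by omega⟩
    rw [he, pow_succ 2 e] at h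
    have h3 : Even ((2 : ℤ) ^ e * 2) := even_two.mul_left _
    exact (Int.not_even_iff_odd.2 h) (h3.pow_of_ne_zero (by norm_num))
  · intro h
    rw [h, Nat.sub_self, pow_zero, one_pow]
    exact odd_one

end Pool.Agent.Q286.Apn
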