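import Mathlib

/-!
A Boolean function of low degree has weight divisible by four.
-/

namespace Pool.Agent.Q286.Apn

open Finset

variable {ι : Type} [Fintype ι] [DecidableEq ι]

theorem card_superset (T : Finset ι) :
    (univ.filter (fun v : Finset ι => T ⊆ v)).card = 2 ^ (Fintype.card ι - T.card) := by
  have h : univ.filter (fun v : Finset ι => T ⊆ v) = Icc T univ := by
    ext v
    simp [mem_Icc]
  rw [h, card_Icc_finset (subset_univ T), card_univ]

/-- sum over all `v` of the square of the number of members of `A` contained in `v` -/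
theorem sq_sum (k : ℕ) (hk : 2 ≤ k) (hι : Fintype.card ι = 2 * k - 1) (A : Finset (Finset ι))
    (hA : ∀ T ∈ A, T.card < k) :
    (4 : ℤ) ∣ ∑ v : Finset ι, (∑ T ∈ A, if T ⊆ v then (1 : ℤ) else 0) ^ 2 := by
  induction A using Finset.induction_on with
  | empty => simp
  | insert T₀ A hT₀ ih =>
    have ih' := ih (fun T hT => hA T (mem_insert_of_mem hT))
    have hT₀k : T₀.card < k := hA T₀ (mem_insert_self _ _)
    have h1 : ∀ v : Finset ι, (∑ T ∈ insert T₀ A, if T ⊆ v then (1 : ℤ) else 0) ^ 2 =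
        (∑ T ∈ A, if T ⊆ v then (1 : ℤ) else 0) ^ 2 +
        ((if T₀ ⊆ v then (1 : ℤ) else 0) +
          2 * ∑ T ∈ A, if T ∪ T₀ ⊆ v then (1 : ℤ) else 0) := by
      intro v
      rw [sum_insert hT₀]
      by_cases h : T₀ ⊆ v
      · have h2 : ∀ T ∈ A, (if T ∪ T₀ ⊆ v then (1 : ℤ) else 0) = if T ⊆ v then (1 : ℤ) else 0 := by
          intro T _
          have : (T ∪ T₀ ⊆ v) ↔ (T ⊆ v) := by
            rw [union_subset_iff]
            exact ⟨fun h => h.1, fun h' => ⟨h', h⟩⟩
          simp only [this]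
        rw [sum_congr rfl h2, if_pos h]
        ring
      · have h2 : ∀ T ∈ A, (if T ∪ T₀ ⊆ v then (1 : ℤ) else 0) = 0 := by
          intro T _
          rw [if_neg]
          intro h'
          exact h (subset_union_right.trans h')
        rw [sum_congr rfl h2, if_neg h]
        simp
    simp only [h1]
    rw [sum_add_distrib, sum_add_distrib]
    apply dvd_add ih'
    apply dvd_add
    · rw [← sum_filter, sum_const, nsmul_eq_mul, mul_one, card_superset]
      have h3 : ∃ e, Fintype.card ι - T₀.card = e + 2 := ⟨Fintype.card ι - T₀.card - 2, by omega⟩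
      obtain ⟨e, he⟩ := h3
      rw [he, pow_add]
      push_cast
      exact ⟨2 ^ e, by ring⟩
    · rw [← mul_sum, sum_comm]
      have h3 : (2 : ℤ) ∣ ∑ T ∈ A, ∑ v : Finset ι, if T ∪ T₀ ⊆ v then (1 : ℤ) else 0 := by
        apply dvd_sum
        intro T hT
        rw [← sum_filter, sum_const, nsmul_eq_mul, mul_one, card_superset]
        have h4 := card_union_le T T₀
        have h5 := hA T (mem_insert_of_mem hT)
        have h3 : ∃ e, Fintype.card ι - (T ∪ T₀).card = e + 1 :=
          ⟨Fintype.card ι - (T ∪ T₀).card - 1, by omega⟩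
        obtain ⟨e, he⟩ := h3
        rw [he, pow_succ]
        push_cast
        exact dvd_mul_left _ _
      obtain ⟨q, hq⟩ := h3
      rw [hq]
      exact ⟨q, by ring⟩

theorem moebius_mod2 (f : Finset ι → ℤ) (v : Finset ι) :
    Even ((∑ T ∈ v.powerset, ∑ S ∈ T.powerset, f S) - f v) := by
  have h1 : ∑ T ∈ v.powerset, ∑ S ∈ T.powerset, f S =
      ∑ S ∈ v.powerset, ∑ T ∈ Icc S v, f S := by
    rw [sum_comm' (t' := v.powerset) (s' := fun S => Icc S v)]
    intro T S
    simp only [mem_powerset, mem_Icc, le_eq_subset]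
    constructor
    · rintro ⟨h1, h2⟩
      exact ⟨⟨h2, h1⟩, h2.trans h1⟩
    · rintro ⟨⟨h1, h2⟩, -⟩
      exact ⟨h2, h1⟩
  rw [h1, ← add_sum_erase _ _ (mem_powerset_self v)]
  have h2 : ∑ T ∈ Icc v v, f v = f v := by simp
  rw [h2, add_sub_cancel_left]
  apply Finset.even_sum
  intro S hS
  rw [mem_erase, mem_powerset] at hS
  rw [sum_const, card_Icc_finset hS.2, nsmul_eq_mul]
  have h3 : S.card < v.card := card_lt_card (lt_of_le_of_ne hS.2 hS.1)
  obtain ⟨e, he⟩ : ∃ e, v.card - S.card = e + 1 := ⟨v.card - S.card - 1, by omega⟩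
  rw [he, pow_succ]
  push_cast
  exact (even_two.mul_left _).mul_right _

/-- Weight divisible by four. -/
theorem weight_mod4 (k : ℕ) (hk : 2 ≤ k) (hι : Fintype.card ι = 2 * k - 1)
    (f : Finset ι → ℤ) (hf : ∀ S, f S = 0 ∨ f S = 1)
    (hT : ∀ T : Finset ι, k ≤ T.card → Even (∑ S ∈ T.powerset, f S)) :
    (4 : ℤ) ∣ ∑ S, f S := by
  classical
  set A : Finset (Finset ι) := univ.filter (fun T => Odd (∑ S ∈ T.powerset, f S)) with hA
  have hAk : ∀ T ∈ A, T.card < k := by
    intro T hTA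
    rw [hA, mem_filter] at hTA
    by_contra hcon
    push Not at hcon
    exact (Int.not_even_iff_odd.2 hTA.2) (hT T hcon)
  have hK : ∀ v : Finset ι, Even ((∑ T ∈ A, if T ⊆ v then (1 : ℤ) else 0) - f v) := by
    intro v
    have h1 : ∑ T ∈ A, (if T ⊆ v then (1 : ℤ) else 0) =
        ∑ T ∈ v.powerset, if Odd (∑ S ∈ T.powerset, f S) then (1 : ℤ) else 0 := by
      rw [hA, sum_filter]
      have h2 : v.powerset = univ.filter (fun T => T ⊆ v) := by ext T; simp
      rw [h2, sum_filter]
      apply sum_congr rfl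
      intro T _
      split_ifs <;> rfl
    have h3 : Even (∑ T ∈ A, (if T ⊆ v then (1 : ℤ) else 0) -
        ∑ T ∈ v.powerset, ∑ S ∈ T.powerset, f S) := by
      rw [h1, ← sum_sub_distrib]
      apply Finset.even_sum
      intro T _
      split_ifs with h
      · exact (odd_one).sub_odd h
      · rw [zero_sub]
        exact (Int.not_odd_iff_even.1 h).neg
    have h4 := h3.add (moebius_mod2 f v)
    have h5 : (∑ T ∈ A, (if T ⊆ v then (1 : ℤ) else 0) -
        ∑ T ∈ v.powerset, ∑ S ∈ T.powerset, f S) +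
        ((∑ T ∈ v.powerset, ∑ S ∈ T.powerset, f S) - f v) =
        (∑ T ∈ A, if T ⊆ v then (1 : ℤ) else 0) - f v := by ring
    rwa [h5] at h4
  have h6 := sq_sum k hk hι A hAk
  have h7 : (4 : ℤ) ∣ ∑ v : Finset ι, ((∑ T ∈ A, if T ⊆ v then (1 : ℤ) else 0) ^ 2 - f v) := by
    apply dvd_sum
    intro v _
    obtain ⟨r, hr⟩ := hK v
    have h8 : (∑ T ∈ A, if T ⊆ v then (1 : ℤ) else 0) = f v + (r + r) := by linarith
    rw [h8]
    rcases hf v with h | h
    · rw [h]; exact ⟨r ^ 2, by ring⟩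
    · rw [h]; exact ⟨r + r ^ 2, by ring⟩
  rw [sum_sub_distrib] at h7
  have h9 := dvd_sub h6 h7
  rwa [sub_sub_cancel] at h9

end Pool.Agent.Q286.Apn
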