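import Pool.Agent.Q286.Apn.Basic

/-!
Ordered triples versus three-element subsets; parity of exclude multiplicities.
-/

namespace Pool.Agent.Q286.Apn

open Finset

theorem distinct_of_card {W : Type} [DecidableEq W] {x y z : W}
    (h : ({x, y, z} : Finset W).card = 3) : x ≠ y ∧ x ≠ z ∧ y ≠ z := by
  refine ⟨?_, ?_, ?_⟩
  · rintro rfl
    have h2 : ({x, x, z} : Finset W) = {x, z} := by simp
    rw [h2] at h
    have := card_le_two (a := x) (b := z)
    omega
  · rintro rfl
    have h2 : ({x, y, x} : Finset W) = {x, y} := by
      ext w; simp; tauto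
    rw [h2] at h
    have := card_le_two (a := x) (b := y)
    omega
  · rintro rfl
    have h2 : ({x, y, y} : Finset W) = {x, y} := by simp
    rw [h2] at h
    have := card_le_two (a := x) (b := y)
    omega

theorem triples {W : Type} [AddCommGroup W] [DecidableEq W] (hW : ∀ x : W, x + x = 0)
    (S : Finset W) (p : W) (hp : p ∉ S) :
    ((S ×ˢ S ×ˢ S).filter (fun t => t.1 + t.2.1 + t.2.2 = p)).card = 6 * mult S p := by
  unfold mult
  rw [card_eq_sum_card_fiberwise (f := fun t : W × W × W => ({t.1, t.2.1, t.2.2} : Finset W))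
    (t := (S.powersetCard 3).filter (fun t => ∑ q ∈ t, q = p))]
  · rw [sum_const_nat (m := 6), mul_comm]
    intro T hT
    rw [mem_filter, mem_powersetCard, card_eq_three] at hT
    obtain ⟨⟨hTS, a, b, c, hab, hac, hbc, rfl⟩, hsum⟩ := hT
    have hsum' : a + b + c = p := by
      rw [sum_insert, sum_insert, sum_singleton] at hsum
      · rw [← hsum]; abel
      · simpa using hbc
      · simp [hab, hac]
    have ha : a ∈ S := hTS (by simp)
    have hb : b ∈ S := hTS (by simp)
    have hc : c ∈ S := hTS (by simp)
    have hcard3 : ({a, b, c} : Finset W).card = 3 := card_eq_three.2 ⟨a, b, c, hab, hac, hbc, rfl⟩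
    have heq : ((S ×ˢ S ×ˢ S).filter (fun t => t.1 + t.2.1 + t.2.2 = p)).filter
        (fun t : W × W × W => ({t.1, t.2.1, t.2.2} : Finset W) = {a, b, c}) =
        {(a, b, c), (a, c, b), (b, a, c), (b, c, a), (c, a, b), (c, b, a)} := by
      ext ⟨x, y, z⟩
      simp only [mem_filter, mem_product, mem_insert, mem_singleton, Prod.mk.injEq]
      constructor
      · rintro ⟨-, h⟩
        have hd := distinct_of_card (x := x) (y := y) (z := z) (by rw [h]; exact hcard3)
        have hx : x ∈ ({a, b, c} : Finset W) := by rw [← h]; simp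
        have hy : y ∈ ({a, b, c} : Finset W) := by rw [← h]; simp
        have hz : z ∈ ({a, b, c} : Finset W) := by rw [← h]; simp
        simp only [mem_insert, mem_singleton] at hx hy hz
        obtain ⟨h1, h2, h3⟩ := hd
        rcases hx with rfl | rfl | rfl <;> rcases hy with rfl | rfl | rfl <;>
          rcases hz with rfl | rfl | rfl <;>
            (first | exact absurd rfl h1 | exact absurd rfl h2 | exact absurd rfl h3 | simp)
      · rintro (⟨rfl, rfl, rfl⟩ | ⟨rfl, rfl, rfl⟩ | ⟨rfl, rfl, rfl⟩ | ⟨rfl, rfl, rfl⟩ |
          ⟨rfl, rfl, rfl⟩ | ⟨rfl, rfl, rfl⟩)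
        · exact ⟨⟨⟨by assumption, by assumption, by assumption⟩, hsum'⟩, rfl⟩
        · refine ⟨⟨⟨by assumption, by assumption, by assumption⟩, ?_⟩, ?_⟩
          · rw [← hsum']; abel
          · ext w; simp only [mem_insert, mem_singleton]; tauto
        · refine ⟨⟨⟨by assumption, by assumption, by assumption⟩, ?_⟩, ?_⟩
          · rw [← hsum']; abel
          · ext w; simp only [mem_insert, mem_singleton]; tauto
        · refine ⟨⟨⟨by assumption, by assumption, by assumption⟩, ?_⟩, ?_⟩
          · rw [← hsum']; abel
          · ext w; simp only [mem_insert, mem_singleton]; tauto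
        · refine ⟨⟨⟨by assumption, by assumption, by assumption⟩, ?_⟩, ?_⟩
          · rw [← hsum']; abel
          · ext w; simp only [mem_insert, mem_singleton]; tauto
        · refine ⟨⟨⟨by assumption, by assumption, by assumption⟩, ?_⟩, ?_⟩
          · rw [← hsum']; abel
          · ext w; simp only [mem_insert, mem_singleton]; tauto
    rw [heq]
    have hba := hab.symm
    have hca := hac.symm
    have hcb := hbc.symm
    rw [card_insert_of_notMem, card_insert_of_notMem, card_insert_of_notMem,
      card_insert_of_notMem, card_insert_of_notMem, card_singleton] <;>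
      simp [hab, hac, hbc, hba, hca, hcb]
  · rintro ⟨x, y, z⟩ h
    rw [mem_coe, mem_filter, mem_product, mem_product] at h
    obtain ⟨⟨hx, hy, hz⟩, hs⟩ := h
    simp only at hx hy hz hs
    have h1 : x ≠ y := by
      rintro rfl
      apply hp
      rw [← hs, hW, zero_add]; exact hz
    have h2 : x ≠ z := by
      rintro rfl
      apply hp
      rw [← hs, add_comm x y, add_assoc, hW, add_zero]; exact hy
    have h3 : y ≠ z := by
      rintro rfl
      apply hp
      rw [← hs, add_assoc, hW, add_zero]; exact hx
    rw [mem_coe, mem_filter, mem_powersetCard]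
    refine ⟨⟨?_, card_eq_three.2 ⟨x, y, z, h1, h2, h3, rfl⟩⟩, ?_⟩
    · intro w hw
      simp only [mem_insert, mem_singleton] at hw
      rcases hw with rfl | rfl | rfl
      · exact hx
      · exact hy
      · exact hz
    · show ∑ q ∈ ({x, y, z} : Finset W), q = p
      rw [sum_insert, sum_insert, sum_singleton]
      · rw [← hs]; abel
      · simpa using h3
      · simp [h1, h2]

variable {n : ℕ}

theorem cnt_eq_mult (F : V n → V n) (a b : V n) (hb : b ≠ F a) :
    cnt F a (F a + b) = 6 * mult (graph F) (a, b) := by
  rw [← triples (fun x : V n × V n => by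
    ext1
    · exact vadd_self _
    · exact vadd_self _) (graph F) (a, b)]
  · unfold cnt
    apply card_bij (fun (q : V n × V n) _ => ((q.1, F q.1), (q.2, F q.2),
      (q.1 + q.2 + a, F (q.1 + q.2 + a))))
    · rintro ⟨x, y⟩ h
      rw [mem_filter] at h
      rw [mem_filter, mem_product, mem_product]
      refine ⟨⟨?_, ?_, ?_⟩, ?_⟩
      · exact mem_image.2 ⟨x, mem_univ _, rfl⟩
      · exact mem_image.2 ⟨y, mem_univ _, rfl⟩
      · exact mem_image.2 ⟨x + y + a, mem_univ _, rfl⟩
      · have h2 := h.2
        simp only at h2
        show (x + y + (x + y + a), F x + F y + F (x + y + a)) = (a, b)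
        rw [Prod.mk.injEq]
        constructor
        · rw [← add_assoc, vadd_self, zero_add]
        · have h3 : F x + F y + F (x + y + a) + b = 0 := by
            have h4 : F x + F y + F (x + y + a) + b =
                (F x + F y + F (x + y + a) + F a) + (F a + b) := by
              calc F x + F y + F (x + y + a) + b
                  = F x + F y + F (x + y + a) + b + 0 := by rw [add_zero]
                _ = F x + F y + F (x + y + a) + b + (F a + F a) := by rw [vadd_self]
                _ = _ := by abel
            rw [h4, h2, vadd_self]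
          exact eq_of_vadd_eq_zero h3
    · rintro ⟨x, y⟩ _ ⟨x', y'⟩ _ h
      simp only [Prod.mk.injEq] at h
      rw [h.1.1, h.2.1.1]
    · rintro ⟨⟨x, x'⟩, ⟨y, y'⟩, ⟨z, z'⟩⟩ h
      rw [mem_filter, mem_product, mem_product] at h
      obtain ⟨⟨hx, hy, hz⟩, hs⟩ := h
      simp only [graph, mem_image, mem_univ, true_and, Prod.mk.injEq] at hx hy hz
      obtain ⟨_, rfl, rfl⟩ := hx
      obtain ⟨_, rfl, rfl⟩ := hy
      obtain ⟨_, rfl, rfl⟩ := hz
      simp only [Prod.mk_add_mk, Prod.mk.injEq] at hs
      rename_i x y z
      have hz : x + y + a = z := by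
        rw [← hs.1]
        rw [← add_assoc, vadd_self, zero_add]
      refine ⟨(x, y), ?_, ?_⟩
      · rw [mem_filter]
        refine ⟨mem_univ _, ?_⟩
        show F x + F y + F (x + y + a) + F a = F a + b
        rw [hz, hs.2, add_comm]
      · simp only [hz]
  · intro h
    simp only [graph, mem_image, mem_univ, true_and, Prod.mk.injEq] at h
    obtain ⟨x, rfl, hx⟩ := h
    exact hb hx.symm

/-! ### Amplitudes -/

theorem walsh_zero (F : V n → V n) (u : V n) : walsh F u 0 = if u = 0 then 2 ^ n else 0 := by
  rw [← sum_sgn_ip' u, walsh_eq]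
  apply sum_congr rfl
  intro x _
  rw [ip_zero_left, sgn_zero, one_mul]

/-- For a plateaued function every amplitude is a power of two, at least `2^(n/2)`. -/
theorem amplitude (F : V n → V n) (hF : IsPlateaued F) (v : V n) :
    ∃ j : ℕ, n ≤ 2 * j ∧ (v = 0 → j = n) ∧
      (∀ u, walsh F u v = 0 ∨ walsh F u v = 2 ^ j ∨ walsh F u v = -2 ^ j) ∧
      (2 * j = n → ∀ u, walsh F u v ≠ 0) := by
  classical
  by_cases hv : v = 0
  · refine ⟨n, by omega, fun _ => rfl, ?_, ?_⟩
    · intro u
      rw [hv, walsh_zero]
      by_cases hu : u = 0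
      · right; left; rw [if_pos hu]
      · left; rw [if_neg hu]
    · intro hn
      have hn0 : n = 0 := by omega
      intro u
      rw [hv, walsh_zero, if_pos]
      · positivity
      · subst hn0
        exact Subsingleton.elim _ _
  · obtain ⟨l, hl0, hl⟩ := hF v hv
    have hP := parseval F v
    -- a nonzero value
    obtain ⟨u₀, hu₀⟩ : ∃ u, walsh F u v ≠ 0 := by
      by_contra hcon
      push Not at hcon
      have : ∑ u, walsh F u v ^ 2 = 0 := sum_eq_zero (fun u _ => by rw [hcon u]; ring)
      rw [this] at hP
      have : (0 : ℤ) < 2 ^ (2 * n) := by positivity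
      omega
    set m : ℕ := (walsh F u₀ v).natAbs with hm
    have hml : (m : ℝ) = l := by
      have h1 : (m : ℝ) = |(walsh F u₀ v : ℝ)| := by
        rw [hm, Nat.cast_natAbs, Int.cast_abs]
      rw [h1]
      rcases hl u₀ with h | h | h
      · exact absurd (by exact_mod_cast h) hu₀
      · rw [h, abs_of_nonneg hl0]
      · rw [h, abs_neg, abs_of_nonneg hl0]
    have hval : ∀ u, walsh F u v = 0 ∨ walsh F u v = m ∨ walsh F u v = -m := by
      intro u
      rcases hl u with h | h | h
      · left; exact_mod_cast h
      · right; left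
        rw [← hml] at h
        exact_mod_cast h
      · right; right
        rw [← hml] at h
        exact_mod_cast h
    set K := (univ.filter (fun u => walsh F u v ≠ 0)).card with hK
    have hsum : (K : ℤ) * (m : ℤ) ^ 2 = 2 ^ (2 * n) := by
      rw [← hP]
      have h1 : ∀ u, walsh F u v ^ 2 = if walsh F u v ≠ 0 then (m : ℤ) ^ 2 else 0 := by
        intro u
        by_cases h : walsh F u v = 0
        · rw [h]; simp
        · rw [if_pos h]
          rcases hval u with h' | h' | h'
          · exact absurd h' h
          · rw [h']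
          · rw [h']; ring
      simp only [h1]
      rw [← sum_filter, sum_const, nsmul_eq_mul]
    have hsum' : K * m ^ 2 = 2 ^ (2 * n) := by exact_mod_cast hsum
    have hdvd : m ^ 2 ∣ (2 ^ n) ^ 2 := by
      rw [← pow_mul, mul_comm n 2, ← hsum']
      exact dvd_mul_left _ _
    have hdvd' : m ∣ 2 ^ n := (Nat.pow_dvd_pow_iff (by norm_num)).1 hdvd
    obtain ⟨j, hjn, hj⟩ := (Nat.dvd_prime_pow Nat.prime_two).1 hdvd'
    have hKle : K ≤ 2 ^ n := by
      calc K ≤ (univ : Finset (V n)).card := card_filter_le _ _
        _ = 2 ^ n := by simp [ZMod.card]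
    rw [hj, ← pow_mul] at hsum'
    have hj2 : n ≤ 2 * j := by
      by_contra hcon
      push Not at hcon
      have h1 : K * 2 ^ (j * 2) < 2 ^ (2 * n) := by
        calc K * 2 ^ (j * 2) ≤ 2 ^ n * 2 ^ (j * 2) := Nat.mul_le_mul_right _ hKle
          _ = 2 ^ (n + j * 2) := by rw [pow_add]
          _ < 2 ^ (2 * n) := Nat.pow_lt_pow_right (by norm_num) (by omega)
      omega
    refine ⟨j, hj2, fun h => absurd h hv, ?_, ?_⟩
    · intro u
      rcases hval u with h | h | h
      · left; exact h
      · right; left; rw [h, hj]; push_cast; rfl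
      · right; right; rw [h, hj]; push_cast; rfl
    · intro hn u hu
      have h2 : K = 2 ^ n := by
        have h3 : K * 2 ^ n = 2 ^ n * 2 ^ n := by
          have : j * 2 = n := by omega
          rw [this] at hsum'
          rw [hsum', ← pow_add]; congr 1; omega
        exact Nat.eq_of_mul_eq_mul_right (by positivity) h3
      have h3 : K < 2 ^ n := by
        calc K < (univ : Finset (V n)).card := by
              apply card_lt_card
              refine ⟨filter_subset _ _, ?_⟩
              intro h
              have := h (mem_univ u)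
              rw [mem_filter] at this
              exact this.2 hu
          _ = 2 ^ n := by simp [ZMod.card]
      omega

end Pool.Agent.Q286.Apn
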